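import Pool.Agent.H15.AGR

set_option autoImplicit false

namespace Pool.Agent.Results.MP_514f39_an.NoBasis

open Filter Topology Finset

section
variable {E : Type} [NormedAddCommGroup E] [NormedSpace ℝ E]

/-- `y = ∑_i α_{σ i} x_{σ i}` (norm convergence of the partial sums). -/
def Sums (x : ℕ → E) (α : ℕ → ℝ) (σ : ℕ → ℕ) (y : E) : Prop :=
  Tendsto (fun n => ∑ i ∈ range n, α (σ i) • x (σ i)) atTop (𝓝 y)

def IsBasis (x : ℕ → E) : Prop := ∀ y, ∃! α : ℕ → ℝ, Sums x α id y

def IsMinimal (x : ℕ → E) : Prop :=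
  ∀ m, x m ∉ (Submodule.span ℝ (x '' {n | n ≠ m})).topologicalClosure

def PropU (x : ℕ → E) : Prop :=
  ∀ y, ∃ α : ℕ → ℝ, (∃ σ : Equiv.Perm ℕ, Sums x α σ y) ∧
    ∀ (β : ℕ → ℝ) (π : Equiv.Perm ℕ), Sums x β π y → β = α

lemma coef {e : ℕ → E} {e' : ℕ → E →L[ℝ] ℝ} (h : ∀ i j, e' i (e j) = if i = j then 1 else 0)
    {β : ℕ → ℝ} {π : Equiv.Perm ℕ} {y : E} (hs : Sums e β π y) : β = fun i => e' i y := by
  ext i
  obtain ⟨k, rfl⟩ := π.surjective i
  refine tendsto_nhds_unique (tendsto_const_nhds.congr' ?_) (((e' (π k)).continuous.tendsto y).comp hs)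
  filter_upwards [eventually_gt_atTop k] with n hn
  simp [h, hn]

lemma sort {t : ℕ → ℝ} (h0 : ∀ i, 0 < t i) (h : Tendsto t atTop (𝓝 0)) :
    ∃ σ : Equiv.Perm ℕ, Antitone fun i => t (σ i) := by
  let key : ℕ → ℝᵒᵈ ×ₗ ℕ := fun i => toLex (OrderDual.toDual (t i), i)
  have le : ∀ i j, key j ≤ key i → t i ≤ t j := fun i j a => Prod.Lex.monotone_fst _ _ a
  have ki : Function.Injective key := fun i j a => congrArg (fun p => (ofLex p).2) a
  have fin : ∀ i, {j | key j < key i}.Finite := fun i => by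
    have := h.eventually (gt_mem_nhds (h0 i))
    rw [← Nat.cofinite_eq_atTop, eventually_cofinite] at this
    exact this.subset fun j a => not_lt.2 (le _ _ (le_of_lt a))
  let r : ℕ → ℕ := fun i => {j | key j < key i}.ncard
  have m : ∀ i j, key i < key j → r i < r j := fun i j a => Set.ncard_lt_ncard
    ⟨fun k b => lt_trans b a, fun b => lt_irrefl (key i) (b a)⟩ (fin j)
  have ri : Function.Injective r := fun i j a => ki (le_antisymm
    (not_lt.1 fun b => (m _ _ b).ne' a) (not_lt.1 fun b => (m _ _ b).ne a))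
  have rs : Function.Surjective r := fun n => by
    obtain ⟨_, ⟨i, rfl⟩, hi⟩ := (Set.infinite_range_of_injective ri).exists_gt n
    have : r '' {j | key j < key i} = Set.Iio (r i) := Set.eq_of_subset_of_ncard_le
      (by rintro _ ⟨j, a, rfl⟩; exact m _ _ a)
      (by rw [Set.ncard_image_of_injective _ ri]; simp [r]) (Set.finite_Iio _)
    obtain ⟨j, -, a⟩ : n ∈ r '' {j | key j < key i} := by rw [this]; exact hi
    exact ⟨j, a⟩
  let e := Equiv.ofBijective r ⟨ri, rs⟩
  refine ⟨e.symm, fun a b hab => le _ _ (not_lt.1 fun c => ?_)⟩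
  have := m _ _ c
  change e _ < e _ at this
  simp only [Equiv.apply_symm_apply] at this
  omega

lemma greedy {e : ℕ → E} {e' : ℕ → E →L[ℝ] ℝ} (h : ∀ i j, e' i (e j) = if i = j then 1 else 0)
    (hd : Dense ((Submodule.span ℝ (Set.range e) : Submodule ℝ E) : Set E))
    (h0 : ∀ x : E, Tendsto (fun i => |e' i x|) atTop (𝓝 0)) {C : ℝ}
    (hC : ∀ (x : E) (A : Finset ℕ), (∀ i ∈ A, ∀ j : ℕ, j ∉ A → ‖e' j x‖ ≤ ‖e' i x‖) →
      ‖x - ∑ i ∈ A, e' i x • e i‖ ≤ C * ‖x‖) (x : E) :
    ∃ σ : Equiv.Perm ℕ, Sums e (fun i => e' i x) σ x := by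
  classical
  let t : ℕ → ℝ := fun i => if e' i x = 0 then 1 / ((i : ℝ) + 1) else |e' i x|
  have t0 : ∀ i, 0 < t i := fun i => by
    simp only [t]; split_ifs with a
    exacts [by positivity, abs_pos.2 a]
  have t1 : ∀ i, |e' i x| ≤ t i := fun i => by
    simp only [t]; split_ifs with a
    exacts [by rw [a, abs_zero]; positivity, le_rfl]
  have t2 : Tendsto t atTop (𝓝 0) := by
    refine squeeze_zero (fun i => (t0 i).le) (g := fun i : ℕ => 1 / ((i : ℝ) + 1) + |e' i x|) (fun i => ?_)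
      (by simpa using tendsto_one_div_add_atTop_nhds_zero_nat.add (h0 x))
    simp only [t]; split_ifs
    exacts [le_add_of_nonneg_right (abs_nonneg _), le_add_of_nonneg_left (by positivity)]
  obtain ⟨σ, hσ⟩ := sort t0 t2
  refine ⟨σ, Metric.tendsto_atTop'.2 fun ε hε => ?_⟩
  have p : 0 < ε / (2 * (|C| + 1)) := by positivity
  obtain ⟨y, hy, hxy⟩ := hd.exists_dist_lt x p
  obtain ⟨c, rfl⟩ := Finsupp.mem_span_range_iff_exists_finsupp.1 hy
  let B := c.support
  let w := ∑ i ∈ B, (if e' i x - c i = 0 then (1 : ℝ) else 0) • e i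
  obtain ⟨δ, d0, d1⟩ : ∃ δ : ℝ, 0 < δ ∧ δ * ‖w‖ ≤ ε / (2 * (|C| + 1)) :=
    ⟨ε / (2 * (|C| + 1)) / (‖w‖ + 1), by positivity, by
      rw [div_mul_eq_mul_div, div_le_iff₀ (by positivity)]; gcongr; linarith⟩
  let a : ℕ → ℝ := fun i => c i - δ * if e' i x - c i = 0 then (1 : ℝ) else 0
  let z := x - ∑ i ∈ B, a i • e i
  have z1 : ‖z‖ < ε / (|C| + 1) := by
    have : z = (x - c.sum fun i a => a • e i) + δ • w := by
      simp only [z, a, w, Finsupp.sum, sub_smul, sum_sub_distrib, mul_smul, smul_sum, B]; abel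
    rw [this]
    refine (norm_add_le _ _).trans_lt ?_
    rw [norm_smul, Real.norm_of_nonneg d0.le, ← dist_eq_norm,
      show ε / (|C| + 1) = ε / (2 * (|C| + 1)) + ε / (2 * (|C| + 1)) by field_simp; ring]
    linarith
  have z2 : ∀ i, e' i z = e' i x - if i ∈ B then a i else 0 := fun i => by simp [z, h]
  have z3 : ∀ i ∈ B, 0 < |e' i z| := fun i hi => by
    rw [z2, if_pos hi, abs_pos]
    simp only [a]
    split_ifs with b
    · intro f; linarith
    · simpa using b
  have ev : ∀ᶠ n in atTop, (∀ i ∈ B, σ.symm i < n) ∧ ∀ i ∈ B, t (σ n) < |e' i z| :=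
    ((eventually_all_finset _).2 fun i _ => eventually_gt_atTop _).and
      ((eventually_all_finset _).2 fun i hi => (t2.comp (Nat.cofinite_eq_atTop ▸
        σ.injective.tendsto_cofinite)).eventually (gt_mem_nhds (z3 i hi)))
  obtain ⟨N, hN⟩ := eventually_atTop.1 ev
  refine ⟨N, fun n hn => ?_⟩
  obtain ⟨n1, n2⟩ := hN n hn.le
  let A := ((range n).image σ).filter fun i => i ∈ B ∨ e' i x ≠ 0
  have mA : ∀ i, i ∈ A ↔ σ.symm i < n ∧ (i ∈ B ∨ e' i x ≠ 0) := fun i => by
    simp only [A, mem_filter, mem_image, mem_range]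
    exact and_congr_left fun _ => ⟨by rintro ⟨k, a, rfl⟩; simpa, fun a => ⟨_, a, by simp⟩⟩
  have BA : B ⊆ A := fun i hi => (mA i).2 ⟨n1 i hi, Or.inl hi⟩
  have g := hC z A fun i hi j hj => by
    have hB : j ∉ B := fun b => hj (BA b)
    rw [z2 j, if_neg hB, sub_zero, Real.norm_eq_abs, Real.norm_eq_abs]
    by_cases b : e' j x = 0
    · simp [b]
    have j1 : n ≤ σ.symm j := not_lt.1 fun c => hj ((mA j).2 ⟨c, Or.inr b⟩)
    have j2 := hσ j1
    simp only [Equiv.apply_symm_apply] at j2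
    by_cases c : i ∈ B
    · linarith [t1 j, n2 i c]
    · obtain ⟨i1, i2⟩ := (mA i).1 hi
      have i3 := hσ i1.le
      simp only [Equiv.apply_symm_apply] at i3
      rw [z2, if_neg c, sub_zero]
      have : t i = |e' i x| := if_neg (i2.resolve_left c)
      linarith [t1 j]
  have e1 : z - ∑ i ∈ A, e' i z • e i = x - ∑ i ∈ range n, e' (σ i) x • e (σ i) := by
    rw [← sum_image (f := fun i => e' i x • e i) (fun _ _ _ _ h => σ.injective h),
      ← sum_filter_of_ne (p := fun i => i ∈ B ∨ e' i x ≠ 0) fun i _ b => Or.inr (left_ne_zero_of_smul b)]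
    simp only [z2, sub_smul, sum_sub_distrib, ite_smul, zero_smul, sum_ite_mem, inter_eq_right.2 BA]
    simp only [z, A]; abel
  rw [e1] at g
  rw [dist_comm, dist_eq_norm]
  rw [lt_div_iff₀ (by positivity)] at z1
  nlinarith [norm_nonneg z, le_abs_self C]

end

/-- A minimal sequence with property (U) in a separable real Banach space, no permutation of
which is a Schauder basis. -/
theorem result : ∃ (E : Type) (_ : NormedAddCommGroup E) (_ : NormedSpace ℝ E) (_ : CompleteSpace E)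
    (_ : TopologicalSpace.SeparableSpace E) (x : ℕ → E), IsMinimal x ∧ PropU x ∧
    ¬ ∃ τ : Equiv.Perm ℕ, IsBasis (x ∘ τ) := by
  by_contra hc
  obtain ⟨G, h1, h2, h3⟩ := H2.AG.curves H2.AG.Cv.m H2.AG.pt H2.AG.pt_inj H2.AG.pt_int H2.AG.order
  refine H15.AGR.abstractR G h1 h2 h3 fun X _ _ _ e e' h hd h0 ⟨C, hC⟩ => by_contra fun hn => hc
    ⟨X, inferInstance, inferInstance, inferInstance,
      hd.isSeparable_iff.1 (Set.countable_range e).isSeparable.span, e, fun m hm => ?_,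
      fun y => ⟨fun i => e' i y, greedy h hd h0 (fun x A a => by simpa using hC x A ∅ a (by simp)) y,
        fun β π => coef h⟩, ?_⟩
  · have : (Submodule.span ℝ (e '' {n | n ≠ m})).topologicalClosure ≤ (e' m).ker :=
      Submodule.topologicalClosure_minimal _ (Submodule.span_le.2 (by
        rintro _ ⟨n, a, rfl⟩; exact (h m n).trans (if_neg (Ne.symm a)))) (e' m).isClosed_ker
    have := (h m m).symm.trans (this hm)
    simp at this
  · rintro ⟨τ, hτ⟩
    refine hn ⟨τ, fun y => ?_⟩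
    obtain ⟨α, a, -⟩ := hτ y
    have b : Sums e (α ∘ τ.symm) τ y := by simpa [Sums] using a
    rw [coef h b] at b
    exact b

end Pool.Agent.Results.MP_514f39_an.NoBasis
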